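import Pool.Agent.J6H26.MZ.Inst

/-!
# Multivalued nonexpansive maps: the Borwein-Sims theorem

Let `C` be a nonempty weakly compact convex set in a Banach space, and `d` a function on `C × C` with `‖x - y‖ ≤ d (x, y) ≤ b ‖x - y‖`
such that for all nets `z` in `C` converging weakly to `x` in `C` and all `y` in `C`: `lim d (z, x) ≤ κ lim d (z, y)` (for `κ = 1` the
nonstrict Opial property) and `lim d (z, y) ≤ α max (lim d (z, x)) (d (x, y))` (predicate `AngleOn C d κ α`).  If `κ b α < 2`,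
then every nonexpansive map from `C` to the nonempty compact subsets of `C` (convex or not) has a fixed point.
Examples: `X` is `b`-isomorphic to a subspace of a space `Y` with such a condition for weakly null nets (`Angle Y κ α`), `κ b α < 2`:
`Y` a weakly orthogonal normed lattice with Riesz angle `α`, `κ = 1` (the theorem of Borwein and Sims, 1984, for maps
with one value); `Y = c_0(Γ)`, `κ = α = 1`, so the Banach spaces `X` whose Banach-Mazur distance to a subspace of `c_0(Γ)` is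
less than 2; the spaces `Y` with finite rank operators that split the space (`Splits`).

Proof (files `Pool/Agent/J6H26/MZ`).  Let `u` be approximate fixed points (along an ultrafilter) at distance at most `r` from
`p = w-lim u`.  Put `u_0 = u`, `u_{k+1} = (1 - ε) q_k + ε p`, where `q_k` is a point of `T u_k` with `‖q_k - q_{k-1}‖ ≤ ‖u_k - u_{k-1}‖`.
The compact values at the points of `C` show that the asymptotic radius of `q_k` is at most that of `u_k`, so the
asymptotic radius of `u_k` is at most `(1 - ε)^k r`; and `‖u_k - u_0‖ ≤ (1 - (1 - ε)^k) r`.  All `u_k` are approximate fixed points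
with an error `O(ε)`.  Take `k` with `(1 - ε)^k = 1 / 2` and let `ε` tend to 0 in a second ultrafilter: the result are
approximate fixed points at distance at most `κ b α r / 2` from their weak limit `p'`, and `‖p' - p‖ ≤ r / 2`.  Iterate.
-/

set_option autoImplicit false

universe u v

namespace Pool.Agent.Results.MP_011fc9_an.NonstrictOpial

open Pool.Agent.J6H26.MZ

/-- Every nonexpansive map from `C` to the nonempty compact subsets of `C` has a fixed point. -/
def MultiFPP {X : Type*} [NormedAddCommGroup X] (C : Set X) : Prop :=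
  ∀ T : X → Set X, (∀ x ∈ C, (T x).Nonempty ∧ IsCompact (T x) ∧ T x ⊆ C) →
    (∀ x ∈ C, ∀ y ∈ C, Metric.hausdorffDist (T x) (T y) ≤ dist x y) → ∃ x ∈ C, x ∈ T x

/-- nonempty weakly compact convex sets -/
def WCC {X : Type*} [NormedAddCommGroup X] [NormedSpace ℝ X] (C : Set X) : Prop :=
  C.Nonempty ∧ Convex ℝ C ∧ IsCompact ((toWeakSpace ℝ X) '' C)

theorem result :
    (∀ (X : Type u) [NormedAddCommGroup X] [NormedSpace ℝ X] [CompleteSpace X] (C : Set X), WCC C →
      ∀ (d : X → X → ℝ) (b κ α : ℝ), 0 < b → 0 < κ → 0 ≤ α → κ * b * α < 2 →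
      (∀ x ∈ C, ∀ y ∈ C, ‖x - y‖ ≤ d x y ∧ d x y ≤ b * ‖x - y‖) → AngleOn C d κ α → MultiFPP C) ∧
    (∀ (X : Type u) [NormedAddCommGroup X] [NormedSpace ℝ X] [CompleteSpace X] (Y : Type v)
      [NormedAddCommGroup Y] [NormedSpace ℝ Y] (e : X →L[ℝ] Y) (b κ α : ℝ), 0 < b → 0 < κ → 0 ≤ α →
      κ * b * α < 2 → (∀ x, ‖x‖ ≤ ‖e x‖) → (∀ x, ‖e x‖ ≤ b * ‖x‖) → Angle Y κ α →
      ∀ C : Set X, WCC C → MultiFPP C) ∧
    (∀ (X : Type u) [NormedAddCommGroup X] [NormedSpace ℝ X] [CompleteSpace X] (Γ : Type v)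
      [TopologicalSpace Γ] [DiscreteTopology Γ] (e : X →L[ℝ] ZeroAtInftyContinuousMap Γ ℝ) (b : ℝ), 0 < b → b < 2 →
      (∀ x, ‖x‖ ≤ ‖e x‖) → (∀ x, ‖e x‖ ≤ b * ‖x‖) → ∀ C : Set X, WCC C → MultiFPP C) ∧
    (∀ (X : Type u) [NormedAddCommGroup X] [NormedSpace ℝ X] [CompleteSpace X] (Y : Type v)
      [NormedAddCommGroup Y] [NormedSpace ℝ Y] [Lattice Y] [HasSolidNorm Y] [IsOrderedAddMonoid Y]
      (e : X →L[ℝ] Y) (b α : ℝ), 0 < b → 0 ≤ α → b * α < 2 →
      (∀ x, ‖x‖ ≤ ‖e x‖) → (∀ x, ‖e x‖ ≤ b * ‖x‖) → WeakOrth Y → RieszAngle Y α →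
      ∀ C : Set X, WCC C → MultiFPP C) ∧
    (∀ (Y : Type v) [NormedAddCommGroup Y] [NormedSpace ℝ Y] (κ α : ℝ), 0 < κ → 0 ≤ α → Splits Y κ α →
      Angle Y κ α) := by
  have h1 : ∀ (X : Type u) [NormedAddCommGroup X] [NormedSpace ℝ X] [CompleteSpace X] (Y : Type v)
      [NormedAddCommGroup Y] [NormedSpace ℝ Y] (e : X →L[ℝ] Y) (b κ α : ℝ), 0 < b → 0 < κ → 0 ≤ α →
      κ * b * α < 2 → (∀ x, ‖x‖ ≤ ‖e x‖) → (∀ x, ‖e x‖ ≤ b * ‖x‖) → Angle Y κ α →
      ∀ C : Set X, WCC C → MultiFPP C := by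
    intro X _ _ _ Y _ _ e b κ α hb hκ hα hbα he1 he2 hY C hC T hT hn
    obtain ⟨M, hM⟩ := bdd hC.2.2
    exact main X C hC.1 hC.2.1 hC.2.2 (fun x y => ‖e (x - y)‖) b κ α hb hκ hα hbα
      (fun x _ y _ => ⟨he1 _, he2 _⟩) (angleOn_of_angle e b κ α hb he2 hY C M hM) T hT hn
  refine ⟨?_, h1, ?_, ?_, ?_⟩
  · intro X _ _ _ C hC d b κ α hb hκ hα hbα hd hX T hT hn
    exact main X C hC.1 hC.2.1 hC.2.2 d b κ α hb hκ hα hbα hd hX T hT hn
  · intro X _ _ _ Γ _ _ e b hb hb2 he1 he2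
    refine h1 X (⊤ : Submodule ℝ (ZeroAtInftyContinuousMap Γ ℝ))
      (e.codRestrict (⊤ : Submodule ℝ (ZeroAtInftyContinuousMap Γ ℝ)) fun _ => trivial) b 1 1 hb zero_lt_one zero_le_one
      (by rw [mul_one, one_mul]; exact hb2) he1 he2 (angle_of_flat (flat_c0 Γ ⊤))
  · intro X _ _ _ Y _ _ _ _ _ e b α hb hα hbα he1 he2 hY1 hY2
    exact h1 X Y e b 1 α hb zero_lt_one hα (by rw [one_mul]; exact hbα) he1 he2 (angle_of_lattice Y α hY1 hY2)
  · intro Y _ _ κ α hκ hα hY
    exact angle_of_splits κ α hκ hα hY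

end Pool.Agent.Results.MP_011fc9_an.NonstrictOpial
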