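import Mathlib

/-!
# Multivalued nonexpansive maps with centrally symmetric values

Let `C` be any set in a normed space on which every nonexpansive self-map has a fixed point.  Then every nonexpansive map `T` from `C`
to the nonempty compact convex subsets of `C` with a centre of symmetry (segments, balls, ellipsoids, zonotopes, …)
has a fixed point; more generally the values need only be nonempty compact sets which contain a centre of symmetry.

Proof.  The centre is a nonexpansive selection: let `A`, `B` be compact with the centres `a`, `b` and Hausdorff distance `h`.  For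
`y ∈ A` choose `z ∈ B` with `‖y - z‖ ≤ h` and `y' ∈ A` with `‖(2 b - z) - y'‖ ≤ h`.  Then `2 a - y' ∈ A` differs from
`y + 2 (a - b)` by at most `2 h`.  After `n` steps: `2 n ‖a - b‖ ≤ 2 n h + diam A`.  So `‖a - b‖ ≤ h`.
-/

set_option autoImplicit false

universe u

namespace Pool.Agent.Results.MP_011fc9_an.SymmetricValues

/-- `m` is a centre of symmetry of `A` -/
def IsCentre {X : Type*} [AddCommGroup X] (A : Set X) (m : X) : Prop := ∀ y ∈ A, m + m - y ∈ A

theorem centre_dist {X : Type*} [NormedAddCommGroup X] [NormedSpace ℝ X] {A B : Set X} (hA : A.Nonempty)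
    (hA' : IsCompact A) (hB : B.Nonempty) (hB' : IsCompact B) {a b : X} (ha : IsCentre A a) (hb : IsCentre B b) :
    ‖a - b‖ ≤ Metric.hausdorffDist A B := by
  have hfin : Metric.hausdorffEDist A B ≠ ⊤ :=
    Metric.hausdorffEDist_ne_top_of_nonempty_of_bounded hA hB hA'.isBounded hB'.isBounded
  have hfin' : Metric.hausdorffEDist B A ≠ ⊤ :=
    Metric.hausdorffEDist_ne_top_of_nonempty_of_bounded hB hA hB'.isBounded hA'.isBounded
  obtain ⟨h, hh⟩ : ∃ h : ℝ, h = Metric.hausdorffDist A B := ⟨_, rfl⟩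
  have h1 : ∀ y ∈ A, ∃ z ∈ B, ‖y - z‖ ≤ h := by
    intro y hy
    obtain ⟨z, hz, hz'⟩ := hB'.exists_infDist_eq_dist hB y
    refine ⟨z, hz, ?_⟩
    rw [← dist_eq_norm, ← hz', hh]
    exact Metric.infDist_le_hausdorffDist_of_mem hy hfin
  have h2 : ∀ z ∈ B, ∃ y ∈ A, ‖z - y‖ ≤ h := by
    intro z hz
    obtain ⟨y, hy, hy'⟩ := hA'.exists_infDist_eq_dist hA z
    refine ⟨y, hy, ?_⟩
    rw [← dist_eq_norm, ← hy', hh, Metric.hausdorffDist_comm]
    exact Metric.infDist_le_hausdorffDist_of_mem hz hfin'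
  obtain ⟨y₀, hy₀⟩ := hA
  have h3 : ∀ n : ℕ, ∃ y ∈ A, ‖y - y₀ - (2 * n : ℝ) • (a - b)‖ ≤ 2 * n * h := by
    intro n
    induction n with
    | zero => exact ⟨y₀, hy₀, by simp⟩
    | succ n ih =>
      obtain ⟨y, hy, hy'⟩ := ih
      obtain ⟨z, hz, hz'⟩ := h1 y hy
      obtain ⟨x, hx, hx'⟩ := h2 _ (hb z hz)
      refine ⟨a + a - x, ha x hx, ?_⟩
      have e1 : a + a - x - y₀ - (2 * ((n + 1 : ℕ) : ℝ)) • (a - b) =
          (y - y₀ - (2 * n : ℝ) • (a - b)) + (b + b - z - x) - (y - z) := by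
        push_cast
        have e2 : (2 * ((n : ℝ) + 1)) • (a - b) = (2 * n : ℝ) • (a - b) + ((a - b) + (a - b)) := by
          rw [mul_add, add_smul, mul_one, two_smul]
        rw [e2]
        abel
      rw [e1]
      refine (norm_sub_le _ _).trans ((add_le_add (norm_add_le _ _) le_rfl).trans ?_)
      push_cast
      linarith
  obtain ⟨M, hM⟩ := hA'.isBounded.exists_norm_le
  have h4 : ∀ n : ℕ, 2 * n * ‖a - b‖ ≤ 2 * n * h + (M + M) := by
    intro n
    obtain ⟨y, hy, hy'⟩ := h3 n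
    have e1 : ‖(2 * n : ℝ) • (a - b)‖ ≤ ‖y - y₀‖ + ‖y - y₀ - (2 * n : ℝ) • (a - b)‖ := by
      have : (2 * n : ℝ) • (a - b) = (y - y₀) - (y - y₀ - (2 * n : ℝ) • (a - b)) := by abel
      calc ‖(2 * n : ℝ) • (a - b)‖ = ‖(y - y₀) - (y - y₀ - (2 * n : ℝ) • (a - b))‖ := by rw [← this]
        _ ≤ _ := norm_sub_le _ _
    rw [norm_smul, Real.norm_eq_abs, abs_of_nonneg (by positivity)] at e1
    have e2 : ‖y - y₀‖ ≤ M + M := (norm_sub_le _ _).trans (add_le_add (hM y hy) (hM y₀ hy₀))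
    linarith
  rw [← hh]
  by_contra hlt
  rw [not_le] at hlt
  obtain ⟨n, hn⟩ := exists_nat_gt ((M + M) / (2 * (‖a - b‖ - h)))
  have h5 : 0 < 2 * (‖a - b‖ - h) := by linarith
  rw [div_lt_iff₀ h5] at hn
  have h6 := h4 n
  nlinarith

theorem result :
    ∀ (X : Type u) [NormedAddCommGroup X] [NormedSpace ℝ X] (C : Set X),
      (∀ f : X → X, Set.MapsTo f C C →
        (∀ x ∈ C, ∀ y ∈ C, dist (f x) (f y) ≤ dist x y) → ∃ x ∈ C, f x = x) →
      ∀ T : X → Set X,
        (∀ x ∈ C, (T x).Nonempty ∧ IsCompact (T x) ∧ T x ⊆ C ∧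
          ∃ m, IsCentre (T x) m ∧ (m ∈ T x ∨ Convex ℝ (T x))) →
        (∀ x ∈ C, ∀ y ∈ C, Metric.hausdorffDist (T x) (T y) ≤ dist x y) →
        ∃ x ∈ C, x ∈ T x := by
  intro X _ _ C hC T hT hn
  have h1 : ∀ x, ∃ m, x ∈ C → m ∈ T x ∧ IsCentre (T x) m := by
    intro x
    by_cases hx : x ∈ C
    · obtain ⟨⟨y, hy⟩, -, -, m, hm, hm'⟩ := hT x hx
      refine ⟨m, fun _ => ⟨?_, hm⟩⟩
      rcases hm' with hm' | hm'
      · exact hm'
      · have h2 := hm' hy (hm y hy) (by norm_num : (0 : ℝ) ≤ 1 / 2) (by norm_num : (0 : ℝ) ≤ 1 / 2) (by norm_num)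
        have h3 : (1 / 2 : ℝ) • y + (1 / 2 : ℝ) • (m + m - y) = m := by
          rw [← smul_add, add_sub_cancel, ← two_smul ℝ m, smul_smul]
          norm_num
        rwa [h3] at h2
    · exact ⟨0, fun h => absurd h hx⟩
  choose m hm using h1
  obtain ⟨x, hx, hx'⟩ := hC m (fun x hx => (hT x hx).2.2.1 (hm x hx).1) (by
    intro x hx y hy
    rw [dist_eq_norm]
    exact (centre_dist (hT x hx).1 (hT x hx).2.1 (hT y hy).1 (hT y hy).2.1 (hm x hx).2 (hm y hy).2).trans
      (hn x hx y hy))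
  refine ⟨x, hx, ?_⟩
  have := (hm x hx).1
  rwa [hx'] at this

end Pool.Agent.Results.MP_011fc9_an.SymmetricValues
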